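import Pool.Agent.MP_ca1109_lc.Pnh.FI
import Pool.Agent.MP_ca1109_lc.Pnh.TS

/-!
# Logarithmic seeds against Boolean functions of gates over disjoint unordered blocks of variables

`NTest c B k n T`: the Boolean function `T` of `n` bits is an arbitrary Boolean function of `k` gates
over one partition of the variables into the blocks `{i | b i = j}`; the map `b` is arbitrary, the
blocks have any length, and their order is not known to the generator.  A gate is a question about
a sum or product over `j` of functions `a j` of the blocks `{i | b i = j}`:
* is a sum of REAL numbers at least `θ` (the `a j` take arbitrary real values),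
* does a sum in a finite abelian group lie in a set of at most `B` elements,
* does a product in a commutative monoid of at most `B` elements lie in a given set.
Each `a j` must satisfy `Lev (n ^ c) (a j)`: the indicators of its values have Walsh norms (sums of
absolute values of the Walsh coefficients) whose sum is at most `n ^ c`.  This is true for every
function of at most `c log n` bits and for the value of every parity decision tree with at most
`n ^ c` leaves, with leaves labelled arbitrarily; this is what the second and third part of the
result say.

`LogGen 𝒯 ε`: there is a generator with logarithmic seeds, computable in polynomial time, which fools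
all tests in `𝒯 n` with error at most `ε` for all large `n`.
(`c`, `B`, `k` and `ε` are constants; everything else may depend on `n` and is not known to the
generator.)

Definitions: `Pool/Agent/MP_ca1109_lc/Pnh/Test.lean` (`Lev`, `Blo`, `NGate`, `NTest`),
`Pool/Agent/MP_ca1109_lc/Pnh/TR.lean` (`PDT`: parity decision trees),
`Pool/Agent/MP_ca1109_lc/Mpg/G0.lean`, `Pool/Agent/MP_ca1109_lc/{Circuit,MonoStep}.lean`; the class
of polynomial-time functions is defined in `Pool/Agent/Lib/helper66/Basic.lean`.
-/

namespace Pool.Agent.Results.MP_ca1109_lc.BlockGates

open Pool.Agent.MP_ca1109_lc.Mpg Pool.Agent.MP_ca1109_lc.Pnh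

theorem result (c B k : ℕ) (ε : ℝ) (hε : 0 < ε) :
    LogGen (NTest c B k) ε ∧
    (∀ (n : ℕ) (α : Type) (t : PDT n α), Lev t.leaves t.eval) ∧
    ∀ (n : ℕ) (α : Type) (I : Finset (Fin n)) (f : (Fin n → Bool) → α),
      (∀ x y, (∀ i ∈ I, x i = y i) → f x = f y) → Lev (2 ^ I.card) f :=
  ⟨final c B k hε, fun _ _ t => t.lev, fun _ _ I f hf => lev_short I f hf⟩

end Pool.Agent.Results.MP_ca1109_lc.BlockGates
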