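import Pool.Agent.MP_ca1109_lc.Mon.D1

/-!
# Unconditional logarithmic-seed generators for nested decision lists of any length

`MixedTest d k n T`: the function `T` of `n` bits is an arbitrary function of the signs of `k` real
polynomials of degree at most `d` (sums of real functions of at most `d` bits) and of the answers to
`k` questions `P i x = 0`, where `P i` is a sum of (arbitrarily many) functions of at most `d` bits
with values in an abelian group `Γ i`.  The groups are arbitrary, finite or infinite, and may depend
on `n`: `P i x = 0` may be a system of arbitrarily many polynomial equations of degree `d` over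
rings, fields and moduli which change from equation to equation.
`Tree 𝒯 d k r T`: the function `T` is obtained in at most `r` levels from the tests in `𝒯` by two
rules: arbitrary functions of `k` tests of the level below, and decision lists of ANY length `N` of
tests of the level below (`T i x` for the first `i` for which the answer to the question `E i x` is
yes, and `T' x` if there is no such `i`).  The questions are `P x ≠ 0` (`EqQ d`: `P` as above) or
`L x ∈ A` (`LinQ k`: `L` is an affine map of the bits to an abelian group with at most `k` elements,
for example `ZMod m` with a composite `m`, and `A` is an arbitrary set).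
`AndAnyMod m k n T`: `T` is a conjunction of arbitrarily many arbitrary functions of `k` linear forms
modulo `m` (a circuit AND ∘ ANY ∘ MOD of any size; `m` may be composite).
`WithThr 𝒯 d k n T`: `T` is an arbitrary function of the signs of `k` real polynomials of degree at
most `d` and of the values of `k` tests in `𝒯 n`.
`RingTest c k n T`: `T` is an arbitrary function of `k` conditions of the form `arbitrarily many
programs have prescribed values`; a program is a product of any length of elements of a ring, the
`t`-th factor is chosen by one bit among two elements which are congruent modulo an ideal `J` with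
`J ^ (c + 1) = 0` (for example products of upper triangular `(c + 1) × (c + 1)` matrices over any
ring, in which the bits do not change the diagonals).
`CircSysTest k h Q n T`: `T` is an arbitrary function of `k` conjunctions of arbitrarily many
circuits of depth at most `h` and of any size, with gates of unbounded fan-in which apply an
arbitrary function to the number of ones modulo `q` (one `q ∈ Q` for every circuit), and arbitrary
gates of fan-in `k`.
`ProgSysTest Γ k n T`: `T` is an arbitrary function of the values of `k` programs of any length over
the finite group `Γ` and of `k` conditions `arbitrarily many programs have prescribed values`.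
`ThrTest d k n T`, `GroupTest d k n T`: functions of `k` threshold functions resp. of the answers to
`k` equations only.
`LogGen 𝒯 ε`: there is a generator with logarithmic seeds, computable in polynomial time, which fools
all tests in `𝒯 n` with error at most `ε` for all large `n`; `GenExists`: the same for the circuits of
size at most `n` in a class.
The last part: as soon as the degree or the number of the threshold functions or of the equations,
or the number of levels, or the logarithm of the order of the groups in the questions grows faster
than `log n`, such a generator implies the hypothesis of Impagliazzo and Wigderson (`HardLanguage`).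
Definitions: `Pool/Agent/MP_ca1109_lc/Mon/Defs.lean`, `Pool/Agent/MP_ca1109_lc/Hyb/Defs.lean`,
`Pool/Agent/MP_ca1109_lc/Agp/{Defs,R1}.lean`, `Pool/Agent/MP_ca1109_lc/Mpg/{Defs,G0,K2}.lean`,
`Pool/Agent/MP_ca1109_lc/{Circuit,MonoStep,MonoThreshold,SymMain}.lean`; the class of
polynomial-time functions is defined in `Pool/Agent/Lib/helper66/Basic.lean`.
-/

namespace Pool.Agent.Results.MP_ca1109_lc.DecisionLists

open Pool.Agent.MP_ca1109_lc Pool.Agent.MP_ca1109_lc.Mpg Pool.Agent.MP_ca1109_lc.Agp
  Pool.Agent.MP_ca1109_lc.Hyb Pool.Agent.MP_ca1109_lc.Mon

theorem result :
    (∀ d k r : ℕ, ∀ ε > 0, LogGen (fun n => Tree (MixedTest d k n) d k r) ε ∧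
      GenExists (fun n C => Tree (MixedTest d k n) d k r C.eval) ε) ∧
    (∀ d k m : ℕ, 0 < m → ∀ ε > 0, LogGen (WithThr (AndAnyMod m k) d k) ε) ∧
    (∀ c d k r : ℕ, ∀ ε > 0, LogGen (fun n => Tree (WithThr (RingTest c k) d k n) d k r) ε) ∧
    (∀ (d k h r : ℕ) (Q : Finset ℕ), (∀ q ∈ Q, IsPrimePow q) → ∀ ε > 0,
      LogGen (fun n => Tree (WithThr (CircSysTest k h Q) d k n) d k r) ε) ∧
    (∀ (Γ : Type) [Group Γ] [Finite Γ], Group.IsNilpotent Γ → ∀ d k r : ℕ, ∀ ε > 0,
      LogGen (fun n => Tree (WithThr (ProgSysTest Γ k) d k n) d k r) ε) ∧
    ∀ (g : ℕ → ℕ) (δ : ℝ),
      Filter.Tendsto (fun n : ℕ => (g n : ℝ) / Real.logb 2 n) Filter.atTop Filter.atTop → δ < 1 →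
        ((GenExists (fun n C => ThrTest (g n) 1 n C.eval) δ ∨
          GenExists (fun n C => ThrTest 1 (g n) n C.eval) δ) ∨
        (GenExists (fun n C => GroupTest (g n) 1 n C.eval) δ ∨
          GenExists (fun n C => GroupTest 1 (g n) n C.eval) δ)) ∨
        (GenExists (fun n C => Tree (MixedTest 0 0 n) 1 0 (g n) C.eval) δ ∨
          GenExists (fun n C => Tree (MixedTest 0 0 n) 0 (2 ^ g n) 1 C.eval) δ) →
            HardLanguage :=
  list_generators

end Pool.Agent.Results.MP_ca1109_lc.DecisionLists
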