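import Pool.Agent.MP_ca1109_lc.Mon.G13

/-!
# A dichotomy for generators against programs over finite monoids

`MonTest M n T`: the function `T` of `n` bits is computed by a program over the monoid `M` of
arbitrary length (a product of elements of `M`, the `t`-th factor is chosen by one bit among two
elements; `T` is an arbitrary function of the product).
`Aper M`: every `m` satisfies `m ^ (k + 1) = m ^ k` for some `k`.
`BlockAp M`: for idempotents `e ≤ f` and `g` in the maximal subgroup with the unit `f`, `e * g * e`
generates the same two-sided ideal as `e` (`JEq`); e.g. aperiodic monoids, groups.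
`NoBrandt M`: if two idempotents `e`, `f` generate the same two-sided ideal then `e * f`
or `f * e` generates it, too; e.g. DO, DS.
`DO M`: if two idempotents `e`, `f` generate the same ideal then `e * f * e = e`.
`NilSub M`: all finite groups contained in `M` are nilpotent.
`LogGen 𝒯 ε`: there is a generator with logarithmic seeds, computable in polynomial time, which fools
all tests in `𝒯 n` with error at most `ε` for all large `n`; `LogGenFn 𝒯 ε`: the same with an error
`ε n`; `GenExists P δ`: the same as `LogGen` for the circuits of size at most `n` in the class `P`.
`KWise k n μ`: `μ` is a probability distribution on the strings of `n` bits for which any `k` bits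
are independent and uniformly distributed.

For every finite monoid in one of the three classes `Aper`, `BlockAp`, `NoBrandt`: if programs over
`M` do not compute all functions then generators against all programs over `M` exist unconditionally
for all errors; otherwise no generator fools all programs with an error below `1`, and generators
against the circuits of size at most `n` which compute functions of programs over `M` exist if and
only if generators against all circuits exist.
In the class `NoBrandt` the first case is DO with nilpotent subgroups.  For aperiodic monoids it is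
equivalent to each of the following conditions: the error can be any inverse polynomial; for some `K`
all `K (t + 1)`-wise independent distributions fool all programs with error `2 ^ (-t)`; for some `c`
every program becomes constant if at most `c` suitable bits are fixed.
Definitions: `Pool/Agent/MP_ca1109_lc/Mon/{Defs,G3,G6,G11,G12}.lean`,
`Pool/Agent/MP_ca1109_lc/Mpg/G0.lean`,
`Pool/Agent/MP_ca1109_lc/{Circuit,MonoStep,MonoThreshold}.lean`; the class of polynomial-time
functions is defined in `Pool/Agent/Lib/helper66/Basic.lean`.
-/

namespace Pool.Agent.Results.MP_ca1109_lc.MonoidDichotomy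

open Pool.Agent.MP_ca1109_lc Pool.Agent.MP_ca1109_lc.Mpg Pool.Agent.MP_ca1109_lc.Mon

theorem result (M : Type) [Monoid M] [Finite M] (hM : Aper M ∨ BlockAp M ∨ NoBrandt M) :
    ((∃ n T, ¬ MonTest M n T) → ∀ ε > 0, LogGen (MonTest M) ε ∧
      GenExists (fun n C => MonTest M n C.eval) ε) ∧
    ((∀ n T, MonTest M n T) → (∀ ε < 1, ¬ LogGen (MonTest M) ε) ∧
      ∀ ε δ : ℝ, 0 < ε → ε < 1 → 0 < δ → δ < 1 →
        (GenExists (fun n C => MonTest M n C.eval) ε ↔ GenExists (fun _ _ => True) δ)) ∧
    (NoBrandt M → ((∀ n T, MonTest M n T) ↔ ¬ (DO M ∧ NilSub M))) ∧
    (Aper M →
      [∃ n T, ¬ MonTest M n T,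
       ∀ a : ℕ, LogGenFn (MonTest M) fun n => 1 / (n : ℝ) ^ a,
       ∃ K : ℕ, ∀ t n T, MonTest M n T → ∀ μ, KWise (K * (t + 1)) n μ →
          |∑ x, (if T x = true then μ x else 0) - prob T| ≤ (1 / 2) ^ t,
       ∃ c : ℕ, ∀ n T, MonTest M n T → ∃ (S : Finset (Fin n)) (z : Fin n → Bool), S.card ≤ c ∧
          ∀ x y, (∀ i ∈ S, x i = z i) → (∀ i ∈ S, y i = z i) → T x = T y].TFAE) :=
  final_dichotomy M hM

end Pool.Agent.Results.MP_ca1109_lc.MonoidDichotomy
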