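import Pool.Agent.MP_ca1109_lc.Pt.FI

/-!
# Logarithmic seeds against products of arbitrary functions of disjoint unordered blocks

`ProdTest k c n T`: the Boolean function `T` of `n` bits is `T x = F (∏ j, g j x)`, a product in a
commutative monoid `M` with at most `k` elements, where `F` is arbitrary and `g j` is an ARBITRARY
function, with values in `M`, of the bits in the block `{i | b i = j}`; the map `b` is arbitrary, and
every block has at most `c log n` bits (`2 ^ (size) ≤ n ^ c`).  Examples: combinatorial rectangles
read in any order; AND, OR, XOR, MOD `q`, exactly `t`, and any Boolean function of boundedly many of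
these, of arbitrary functions of disjoint blocks of `c log n` bits.
`LogGen 𝒯 ε`: there is a generator with logarithmic seeds, computable in polynomial time, which fools
all tests in `𝒯 n` with error at most `ε` for all large `n`.
(`k`, `c` and `ε` are constants; `M`, `b`, `g` and `F` may depend on `n` and are not known to the
generator.)

Definitions: `Pool/Agent/MP_ca1109_lc/Pt/Test.lean`, `Pool/Agent/MP_ca1109_lc/Mpg/G0.lean`,
`Pool/Agent/MP_ca1109_lc/{Circuit,MonoStep}.lean`; the class of polynomial-time functions is defined
in `Pool/Agent/Lib/helper66/Basic.lean`.
-/

namespace Pool.Agent.Results.MP_ca1109_lc.ProductTests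

open Pool.Agent.MP_ca1109_lc.Mpg Pool.Agent.MP_ca1109_lc.Pt

theorem result (k c : ℕ) (ε : ℝ) (hε : 0 < ε) : LogGen (ProdTest k c) ε :=
  final k c hε

end Pool.Agent.Results.MP_ca1109_lc.ProductTests
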