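import Pool.Agent.MP_ca1109_lc.Xh.FI

/-!
# Logarithmic seeds against functions of gates over monomials of bounded read

`Gate r B g`: the Boolean function `g` of `n` bits is given by a gate over monomials (conjunctions of
variables) of any number and any width, such that every variable occurs in at most `r` monomials with
a nonzero coefficient.  The gate is of one of two kinds:
* the sum of the coefficients of the true monomials, in any finite abelian group, lies in a set of at
  most `B` elements (counts modulo `q ≤ B` with any set of accepted values, polynomials of any degree
  over the field with two elements, systems of any number of polynomial equations with any moduli);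
* the sum of the real weights of the true monomials is at least a threshold (arbitrary polynomial
  threshold functions in which every variable occurs in at most `r` monomials; halfspaces,
  conjunctions, disjunctions, majorities, decision lists of monomials).
`D2Test r B k n T`: `T` is an arbitrary Boolean function of `k` such gates.
`LogGen 𝒯 ε`: there is a generator with logarithmic seeds, computable in polynomial time, which fools
all tests in `𝒯 n` with error at most `ε` for all large `n`.
(`r`, `B`, `k` and `ε` are constants.)

Definitions: `Pool/Agent/MP_ca1109_lc/Xh/Test.lean`, `Pool/Agent/MP_ca1109_lc/Mpg/G0.lean`,
`Pool/Agent/MP_ca1109_lc/{Circuit,MonoStep}.lean`; the class of polynomial-time functions is defined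
in `Pool/Agent/Lib/helper66/Basic.lean`.
-/

namespace Pool.Agent.Results.MP_ca1109_lc.ReadGates

open Pool.Agent.MP_ca1109_lc.Mpg Pool.Agent.MP_ca1109_lc.Xh

theorem result (r B k : ℕ) (ε : ℝ) (hε : 0 < ε) : LogGen (D2Test r B k) ε :=
  hfinal r B k hε

end Pool.Agent.Results.MP_ca1109_lc.ReadGates
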