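import Pool.Agent.MP_ca1109_lc.Csp.Main

/-!
# Logarithmic-seed generators against the tests definable over a constraint language

`Lang`: finitely many Boolean relations of arbitrary arities.
`PTest L s m T`: for some `a`, the function `T` of `m` bits accepts `x` if and only if some `y` of
`a` bits makes a conjunction of at most `s` atoms true; an atom is an equality of two variables or a
relation of `L` applied to variables, the variables are the coordinates of `x` and `y`.
`PAny L m T`: the same without a bound on the number of atoms; `Small L k m T`: with at most
`m ^ (1 / k)` atoms. `NTest s m T`: the same for an arbitrary circuit of size at most `s` in place of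
the conjunction of atoms (nondeterministic circuits).
`Pol L f`: the function `f`, applied coordinatewise to members of a relation of `L`, gives a member.
`Easy L`: a near-unanimity function (at least three arguments, value `a` if all arguments but at most
one are `a`) or the sum of three bits modulo two is a polymorphism. `Horn L`: the conjunction
of two bits is a polymorphism; `CoHorn L`: the disjunction.
`LogGen 𝒯 e`: there is a generator with logarithmic seeds, computable in polynomial time, which
fools all tests in `𝒯 m` with error at most `e` for all large `m`; `GenExists (fun _ _ => True) (1 / 8)`: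
the generator of the question.
Tests of unbounded size can be fooled (with some or any error smaller than one) if and only if the
language is easy. For the other languages a generator against tests of size `m ^ (1 / k)`, or
`m ^ k`, with an error below `1 / 2` exists if and only if the generator of the question exists, in the
Horn and dual Horn cases, and if and only if a generator against nondeterministic circuits exists,
for all other languages.
Definitions: `Pool/Agent/MP_ca1109_lc/Csp/Defs.lean`, `Pool/Agent/MP_ca1109_lc/Mpg/G0.lean`,
`Pool/Agent/MP_ca1109_lc/{Circuit,MonoStep,MonoThreshold}.lean`; the class of polynomial-time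
functions is defined in `Pool/Agent/Lib/helper66/Basic.lean`.
-/

namespace Pool.Agent.Results.MP_ca1109_lc.SchaeferTrichotomy

open Pool.Agent.MP_ca1109_lc Pool.Agent.MP_ca1109_lc.Mpg Pool.Agent.MP_ca1109_lc.Csp

theorem result (L : Lang) :
    (∀ e : ℝ, 0 < e → e < 1 → (LogGen (PAny L) e ↔ Easy L)) ∧
    (¬ Easy L → ∀ (k : ℕ) (e : ℝ), 0 < k → 0 < e → e < 1 / 2 →
      (Horn L ∨ CoHorn L →
        (LogGen (Small L k) e ↔ GenExists (fun _ _ => True) (1 / 8)) ∧
        (LogGen (fun m T => PTest L (m ^ k) m T) e ↔ GenExists (fun _ _ => True) (1 / 8))) ∧
      (¬ (Horn L ∨ CoHorn L) → ∀ d : ℝ, 0 < d → d < 1 →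
        (LogGen (Small L k) e ↔ LogGen (fun m T => NTest m m T) d) ∧
        (LogGen (fun m T => PTest L (m ^ k) m T) e ↔ LogGen (fun m T => NTest m m T) d))) ∧
    (¬ Easy L → ¬ (Horn L ∨ CoHorn L) → ∀ (k : ℕ) (e : ℝ), 0 < k → 0 < e → e < 1 →
      LogGen (Small L k) e → GenExists (fun _ _ => True) (1 / 8)) :=
  classification L

end Pool.Agent.Results.MP_ca1109_lc.SchaeferTrichotomy
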