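import Pool.Agent.MP_ca1109_lc.Dnf.L.A15

/-!
# Generators for lists of terms and DNFs of bounded read

Terms are conjunctions of literals of any width (`Term n`: a set of variables and their values).
`first k T L x`: the first `k` entries `j` of the list `L` (in the order of the list) for which the
term `T j` is true at `x`.
`ListTest k r n f`: the function `f` of `n` bits is an arbitrary function of `first k T (Ls l) x`,
`l < k`, for `k` lists of any length of nonempty terms, in which every variable occurs in at most
`r` terms.  Examples: arbitrary functions of `k` DNFs (or CNFs, or decision lists of terms) in which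
every variable occurs in at most `r` terms, or of the numbers of true terms up to `k` in `k` lists.
`DTree 𝒯 ∅ d f`: `f` is computed by a decision tree of depth at most `d` whose leaves are labelled
by functions in `𝒯 V`, `V` = the set of the variables queried on the path to the leaf.
`SpreadTest k q γ r n V f`: the same as `ListTest` for lists of at most `n ^ k` terms without
variables in `V`; here a variable may occur in `r * 2 ^ (γ * w)` terms of width `w`, for every `w`, but
every term `T j` has at most `r * |T j|` heavy neighbours: terms which have more than `1 / q` times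
the smaller of the two widths variables in common with `T j`.
`cost r`: `(log r)^2 * log log r` (base 2).
`Biased β μ`: `μ` is a distribution with bias at most `β` (for every nonempty set of bits, the
product of the corresponding signs has expectation at most `β` in absolute value).
`BiasFool 𝒯 ε`: for some `C`, for all large `n` and ALL `r`, all distributions of bias at most
`n ^ (-C) * 2 ^ (-C * cost r)` fool the tests in `𝒯 n r` with error at most `ε`.
`LogGen 𝒯 ε`: there is a generator with logarithmic seeds, computable in polynomial time, which fools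
all tests in `𝒯 n` with error at most `ε` for all large `n`.
`SeedGen 𝒯 s ε`: there are polynomial-time `D`, `G` such that for all large `n` the first `n` bits of
`G (m, seed)`, for some `m = m n ≥ n` with `log m = O(s n)` and seeds of length `D m = O(s n)`, fool all
tests in `𝒯 n` with error at most `ε` (so the generator is computable in time `2 ^ O(s n)`, given `m`).
`IsDNF r n f`: `f` is a DNF in which every variable occurs in at most `r` terms.
(`k`, `q`, `γ`, `ε` are constants, the rest may depend on `n`.)

The last part is a barrier: for an exponent `θ > 1/2`, logarithmic seeds for the DNFs with read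
`2 ^ ((log n) ^ θ)` would give seeds of length `O((log n) ^ (1 / θ))` for all DNFs of polynomial size.

Definitions: `Pool/Agent/MP_ca1109_lc/Dnf/{Defs,Q2}.lean`,
`Pool/Agent/MP_ca1109_lc/Dnf/L/{Defs,A14,A15,A16,A17,A18}.lean`,
`Pool/Agent/MP_ca1109_lc/{Circuit,MonoStep}.lean`, `Pool/Agent/MP_ca1109_lc/Mpg/G0.lean`; the class of
polynomial-time functions is defined in `Pool/Agent/Lib/helper66/Basic.lean`.
-/

namespace Pool.Agent.Results.MP_ca1109_lc.TermLists

open Pool.Agent.MP_ca1109_lc Pool.Agent.MP_ca1109_lc.Mpg Pool.Agent.MP_ca1109_lc.Dnf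
  Pool.Agent.MP_ca1109_lc.Dnf.L

theorem result :
    (∀ (k : ℕ) (ε : ℝ), 0 < ε →
      BiasFool (fun n r => DTree (fun _ => ListTest k r n) ∅ (k * Nat.log 2 n)) ε ∧
      (∀ c : ℕ, LogGen (fun n T => ∃ r : ℕ, cost r ≤ c * Real.logb 2 n ∧
        DTree (fun _ => ListTest k r n) ∅ (k * Nat.log 2 n) T) ε) ∧
      ∀ r : ℕ → ℕ, SeedGen (fun n => DTree (fun _ => ListTest k (r n) n) ∅ (k * Nat.log 2 n))
        (fun n => Real.logb 2 n + cost (r n)) ε) ∧
    (∀ (k : ℕ) (γ ε : ℝ), γ < 1 → 0 < ε → ∃ q : ℕ,
      BiasFool (fun n r => DTree (SpreadTest k q γ r n) ∅ (k * Nat.log 2 n)) ε ∧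
      (∀ c : ℕ, LogGen (fun n T => ∃ r : ℕ, cost r ≤ c * Real.logb 2 n ∧
        DTree (SpreadTest k q γ r n) ∅ (k * Nat.log 2 n) T) ε) ∧
      ∀ r : ℕ → ℕ, SeedGen (fun n => DTree (SpreadTest k q γ (r n) n) ∅ (k * Nat.log 2 n))
        (fun n => Real.logb 2 n + cost (r n)) ε) ∧
    ∀ (θ ε : ℝ), 0 < θ → θ ≤ 1 → LogGen (fun n => IsDNF (2 ^ (Real.logb 2 n ^ θ)) n) ε →
      ∀ c : ℕ, SeedGen (fun n => IsDNF ((n : ℝ) ^ c) n) (fun n => Real.logb 2 n ^ (1 / θ)) ε :=
  main

end Pool.Agent.Results.MP_ca1109_lc.TermLists
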